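import Mathlib
import Pool.Agent.Results.MP_20070e_gt.NoLocalExtension

/-!
# Actions of lattices twisted by a sign character

For a subgroup `Γ` of `SL(n,ℝ)` and a homomorphism `χ : Γ → {±1}` the formula
`γ · x = |x| ^ χ(γ) γ x / |γ x|` defines a real analytic action of `Γ` on `ℝ^n \ {0}` under which
the unit sphere is invariant and carries the standard action.
-/

open scoped Manifold ContDiff Topology MatrixGroups
open Pool.Agent.Results.MP_20070e_gt.NoLocalExtension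

namespace Pool.Agent.Y203.Lat

/-- The map `x ↦ |x|^s A x / |A x|`. -/
noncomputable def tws {n : ℕ} (s : ℤ) (A : SL(n, ℝ)) (x : E n) : E n :=
  (‖x‖ ^ s * ‖lin A x‖⁻¹) • lin A x

lemma tws_ne_zero {n : ℕ} (s : ℤ) (A : SL(n, ℝ)) {x : E n} (hx : x ≠ 0) : tws s A x ≠ 0 := by
  unfold tws
  apply smul_ne_zero
  · apply mul_ne_zero
    · exact zpow_ne_zero _ (norm_ne_zero_iff.2 hx)
    · exact inv_ne_zero (norm_lin_ne _ hx)
  · exact lin_ne_zero _ hx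

lemma norm_tws {n : ℕ} (s : ℤ) (A : SL(n, ℝ)) {x : E n} (hx : x ≠ 0) :
    ‖tws s A x‖ = ‖x‖ ^ s := by
  unfold tws
  rw [norm_smul, norm_mul, norm_zpow, norm_norm, norm_inv, norm_norm, mul_assoc,
    inv_mul_cancel₀ (norm_lin_ne _ hx), mul_one]

lemma tws_one {n : ℕ} {x : E n} (hx : x ≠ 0) : tws 1 (1 : SL(n, ℝ)) x = x := by
  unfold tws
  rw [lin_one, zpow_one]
  change (‖x‖ * ‖x‖⁻¹) • x = x
  rw [mul_inv_cancel₀ (norm_ne_zero_iff.2 hx), one_smul]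

lemma tws_mul {n : ℕ} (s t : ℤ) (A B : SL(n, ℝ)) {x : E n} (hx : x ≠ 0) :
    tws (s * t) (A * B) x = tws s A (tws t B x) := by
  conv_rhs => rw [tws]
  rw [norm_tws t B hx]
  have h1 : lin A (tws t B x) = (‖x‖ ^ t * ‖lin B x‖⁻¹) • lin (A * B) x := by
    rw [lin_mul_apply]
    unfold tws
    rw [map_smul]
  have hpos : 0 < ‖x‖ ^ t * ‖lin B x‖⁻¹ := by
    have := norm_pos_iff.2 hx
    have := norm_pos_iff.2 (lin_ne_zero B hx)
    positivity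
  rw [h1, norm_smul, Real.norm_of_nonneg hpos.le, smul_smul]
  unfold tws
  congr 1
  have hn1 : ‖lin B x‖ ≠ 0 := norm_lin_ne _ hx
  have hn2 : ‖lin (A * B) x‖ ≠ 0 := norm_lin_ne _ hx
  have hn3 : ‖x‖ ^ t ≠ 0 := zpow_ne_zero _ (norm_ne_zero_iff.2 hx)
  rw [← zpow_mul, mul_comm t s]
  field_simp

/-- The twisted map, on the punctured space. -/
noncomputable def twp {n : ℕ} (s : ℤ) (A : SL(n, ℝ)) (x : Pu n) : Pu n :=
  ⟨tws s A x, tws_ne_zero s A (Pu_ne x)⟩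

lemma norm_twp {n : ℕ} (s : ℤ) (A : SL(n, ℝ)) (x : Pu n) :
    ‖(twp s A x : E n)‖ = ‖(x : E n)‖ ^ s := norm_tws s A (Pu_ne x)

lemma twp_mul {n : ℕ} (s t : ℤ) (A B : SL(n, ℝ)) (x : Pu n) :
    twp (s * t) (A * B) x = twp s A (twp t B x) :=
  Subtype.ext (tws_mul s t A B (Pu_ne x))

lemma twp_one {n : ℕ} (x : Pu n) : twp 1 (1 : SL(n, ℝ)) x = x :=
  Subtype.ext (tws_one (Pu_ne x))

/-- The action on `ℝ^n \ {0}` of a group `Δ`, given with a homomorphism `ι` to `SL(n,ℝ)` and a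
character `χ`: `γ · x = |x| ^ χ(γ) ι(γ) x / |ι(γ) x|`. -/
@[reducible] noncomputable def twistAct {n : ℕ} {Δ : Type} [Group Δ] (ι : Δ →* SL(n, ℝ))
    (χ : Δ →* ℤˣ) : MulAction Δ (Pu n) where
  smul γ x := twp (χ γ : ℤ) (ι γ) x
  one_smul x := by
    change twp ((χ 1 : ℤˣ) : ℤ) (ι 1) x = x
    rw [map_one, map_one, Units.val_one]
    exact twp_one x
  mul_smul γ δ x := by
    change twp ((χ (γ * δ) : ℤˣ) : ℤ) (ι (γ * δ)) x =
      twp ((χ γ : ℤˣ) : ℤ) (ι γ) (twp ((χ δ : ℤˣ) : ℤ) (ι δ) x)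
    rw [map_mul, map_mul, Units.val_mul]
    exact twp_mul _ _ _ _ _

lemma incl_twp {n : ℕ} (s : ℤ) (A : SL(n, ℝ)) (x : S n) :
    incl n (sphereAct A x) = twp s A (incl n x) := by
  apply Subtype.ext
  change ‖lin _ (x : E n)‖⁻¹ • lin _ (x : E n) =
    (‖(x : E n)‖ ^ s * ‖lin _ (x : E n)‖⁻¹) • lin _ (x : E n)
  have hx : ‖(x : E n)‖ = 1 := mem_sphere_zero_iff_norm.1 x.2
  rw [hx, one_zpow, one_mul]

/-! ### Real analyticity -/

lemma contMDiff_to_opens' {k n : ℕ} {M : Type*} [TopologicalSpace M] [ChartedSpace (E k) M]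
    {U : TopologicalSpace.Opens (E n)} {f : M → U} {x : M}
    (h : ContMDiffAt (𝓡 k) (𝓡 n) ω (fun y => (f y : E n)) x) : ContMDiffAt (𝓡 k) (𝓡 n) ω f x :=
  (ChartedSpace.liftPropWithinAt_subtypeVal_comp_iff f Set.univ x).1 h

lemma contDiffAt_tws {n : ℕ} (s : ℤˣ) (A : SL(n, ℝ)) {x : E n} (hx : x ≠ 0) :
    ContDiffAt ℝ ω (tws (s : ℤ) A) x := by
  have h1 : ContDiffAt ℝ ω (fun y : E n => ‖y‖) x := contDiffAt_norm ℝ hx
  have h2 : ContDiffAt ℝ ω (fun y : E n => lin A y) x := (lin A).contDiff.contDiffAt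
  have h3 : ContDiffAt ℝ ω (fun y : E n => ‖lin A y‖) x :=
    ContDiffAt.norm ℝ h2 (lin_ne_zero _ hx)
  have h4 : ContDiffAt ℝ ω (fun y : E n => ‖lin A y‖⁻¹) x :=
    h3.inv (norm_lin_ne _ hx)
  have h5 : ContDiffAt ℝ ω (fun y : E n => ‖y‖ ^ (s : ℤ)) x := by
    rcases Int.units_eq_one_or s with rfl | rfl
    · simpa using h1
    · have h6 : ContDiffAt ℝ ω (fun y : E n => ‖y‖⁻¹) x := h1.inv (norm_ne_zero_iff.2 hx)
      simpa using h6
  exact (h5.mul h4).smul h2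

lemma contMDiff_twp {n : ℕ} (s : ℤˣ) (A : SL(n, ℝ)) :
    ContMDiff (𝓡 n) (𝓡 n) ω (fun y : Pu n => twp (s : ℤ) A y) := by
  intro x
  apply contMDiff_to_opens'
  change ContMDiffAt (𝓡 n) (𝓡 n) ω (fun y : Pu n => tws (s : ℤ) A (y : E n)) x
  exact (contDiffAt_tws s A (Pu_ne x)).contMDiffAt.comp x
    contMDiff_subtype_val.contMDiffAt

lemma contMDiff_incl' {m : ℕ} : ContMDiff (𝓡 (m + 1)) (𝓡 (m + 2)) ω (incl (m + 2)) := by
  intro x
  apply contMDiff_to_opens'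
  have : Fact (Module.finrank ℝ (EuclideanSpace ℝ (Fin (m + 1 + 1))) = m + 1 + 1) :=
    Fact.mk (@finrank_euclideanSpace_fin ℝ _ (m + 1 + 1))
  exact (contMDiff_coe_sphere (E := EuclideanSpace ℝ (Fin (m + 1 + 1)))) x

end Pool.Agent.Y203.Lat
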