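import Mathlib
import Pool.Agent.Y203.Lat.Act

/-!
# Continuity of the untwisted action of `SL(n,ℝ)`
-/

open scoped Topology MatrixGroups
open Pool.Agent.Results.MP_20070e_gt.NoLocalExtension

namespace Pool.Agent.Y203.Lat

lemma continuous_lin_apply {n : ℕ} :
    Continuous (fun p : SL(n, ℝ) × E n => lin p.1 p.2) := by
  have h : ∀ i, Continuous (fun p : SL(n, ℝ) × E n => (lin p.1 p.2) i) := by
    intro i
    simp only [lin_apply]
    refine continuous_finsetSum _ fun j _ => ?_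
    have h1 : Continuous (fun p : SL(n, ℝ) × E n => (p.1 : Matrix (Fin n) (Fin n) ℝ) i j) :=
      (continuous_apply j).comp ((continuous_apply i).comp (continuous_subtype_val.comp
        continuous_fst))
    have h2 : Continuous (fun p : SL(n, ℝ) × E n => p.2 j) := by fun_prop
    exact h1.mul h2
  have h3 : Continuous (fun p : SL(n, ℝ) × E n => WithLp.toLp 2 (fun i => (lin p.1 p.2) i)) :=
    (PiLp.continuous_toLp 2 _).comp (continuous_pi h)
  exact h3

/-- The obvious map to `SL(n,ℝ) × ℝ^n`. -/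
def pmap (n : ℕ) (p : SL(n, ℝ) × Pu n) : SL(n, ℝ) × E n := (p.1, (p.2 : E n))

lemma continuous_pmap (n : ℕ) : Continuous (pmap n) := by
  refine Continuous.prodMk continuous_fst ?_
  exact continuous_subtype_val.comp continuous_snd

/-- The map `(A, x) ↦ |x| A x / |A x|` on pairs. -/
noncomputable def tpair (n : ℕ) (q : SL(n, ℝ) × E n) : E n :=
  (‖q.2‖ * ‖lin q.1 q.2‖⁻¹) • lin q.1 q.2

lemma continuousAt_tpair {n : ℕ} (q : SL(n, ℝ) × E n) (hq : q.2 ≠ 0) :
    ContinuousAt (tpair n) q := by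
  have h1 : ContinuousAt (fun p : SL(n, ℝ) × E n => lin p.1 p.2) q :=
    continuous_lin_apply.continuousAt
  have h2 : ContinuousAt (fun p : SL(n, ℝ) × E n => ‖p.2‖) q :=
    continuous_snd.norm.continuousAt
  have h3 : ContinuousAt (fun p : SL(n, ℝ) × E n => ‖lin p.1 p.2‖⁻¹) q :=
    h1.norm.inv₀ (norm_lin_ne _ hq)
  exact (h2.mul h3).smul h1

lemma tpair_pmap {n : ℕ} (p : SL(n, ℝ) × Pu n) :
    tpair n (pmap n p) = (twp 1 p.1 p.2 : E n) := by
  change (‖(p.2 : E n)‖ * ‖lin p.1 (p.2 : E n)‖⁻¹) • lin p.1 (p.2 : E n) =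
    (‖(p.2 : E n)‖ ^ (1 : ℤ) * ‖lin p.1 (p.2 : E n)‖⁻¹) • lin p.1 (p.2 : E n)
  rw [zpow_one]

lemma continuous_twp_one {n : ℕ} :
    Continuous (fun p : SL(n, ℝ) × Pu n => twp 1 p.1 p.2) := by
  have h : Continuous (fun p : SL(n, ℝ) × Pu n => (twp 1 p.1 p.2 : E n)) := by
    have e : (fun p : SL(n, ℝ) × Pu n => (twp 1 p.1 p.2 : E n)) = fun p => tpair n (pmap n p) :=
      funext fun p => (tpair_pmap p).symm
    rw [e]
    refine continuous_iff_continuousAt.2 fun p => ?_
    exact ContinuousAt.comp (g := tpair n) (f := pmap n) (x := p)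
      (continuousAt_tpair (pmap n p) (Pu_ne p.2)) (continuous_pmap n).continuousAt
  exact continuous_induced_rng.2 h

end Pool.Agent.Y203.Lat
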