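import Mathlib
import Pool.Agent.Results.MP_20070e_gt.NoLocalExtension

/-!
# Generation of `SL(n,ℝ)` by elementary matrices, and continuous paths
-/

open scoped Topology MatrixGroups
open Pool.Agent.Results.MP_20070e_gt.NoLocalExtension

set_option linter.unusedSimpArgs false

namespace Pool.Agent.Y203.Lat

lemma Tr_eq {n : ℕ} (i j : Fin n) (h : i ≠ j) (c : ℝ) :
    Tr i j h c = Matrix.SpecialLinearGroup.transvection h c := rfl

lemma diag2n_eq {n : ℕ} {i j : Fin n} (h : i ≠ j) (a : ℝ) (ha : a ≠ 0) :
    Matrix.SpecialLinearGroup.diag2n h a ha = Tr i j h a * Tr j i h.symm (-a⁻¹) * Tr i j h a *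
      Tr i j h (-1) * Tr j i h.symm 1 * Tr i j h (-1) := by
  have h' := h.symm
  apply Subtype.ext
  change Matrix.diagonal (fun k => if k = i then a else if k = j then a⁻¹ else 1) =
    Matrix.transvection i j a * Matrix.transvection j i (-a⁻¹) * Matrix.transvection i j a *
      Matrix.transvection i j (-1) * Matrix.transvection j i 1 * Matrix.transvection i j (-1)
  simp only [Matrix.transvection]
  simp only [mul_add, add_mul, mul_one, one_mul]
  simp only [Matrix.single_mul_single_same, Matrix.single_mul_single_of_ne _ _ _ _ h,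
    Matrix.single_mul_single_of_ne _ _ _ _ h', mul_zero, zero_mul, add_zero]
  ext p q
  simp only [Matrix.diagonal_apply, Matrix.add_apply, Matrix.one_apply, Matrix.single_apply]
  by_cases hpi : p = i
  · subst hpi
    by_cases hqi : q = p
    · subst hqi
      simp [h, h']
      try field_simp
      try ring
    · by_cases hqj : q = j
      · subst hqj
        simp [h, h']
        try field_simp
        try ring
      · simp [h, h', hqi, hqj, Ne.symm hqi, Ne.symm hqj]
  · by_cases hpj : p = j
    · subst hpj
      by_cases hqi : q = i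
      · subst hqi
        simp [h, h']
        try field_simp
        try ring
      · by_cases hqj : q = p
        · subst hqj
          simp [h, h']
          try field_simp
          try ring
        · simp [h, h', hqi, hqj, Ne.symm hqi, Ne.symm hqj]
    · simp [h, h', hpi, hpj, Ne.symm hpi, Ne.symm hpj]

/-- A property of elements of `SL(n,ℝ)` which holds for the elementary matrices and is stable under
products holds for all of them. -/
theorem gen {m : ℕ} (P : SL(m + 2, ℝ) → Prop)
    (htr : ∀ (i j : Fin (m + 2)) (h : i ≠ j) (c : ℝ), P (Tr i j h c))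
    (hmul : ∀ A B, P A → P B → P (A * B)) (A : SL(m + 2, ℝ)) : P A := by
  refine Matrix.SpecialLinearGroup.diagonal_transvection_induction' P A ?_ htr hmul
  intro i j hij c hc
  rw [diag2n_eq hij c hc]
  exact hmul _ _ (hmul _ _ (hmul _ _ (hmul _ _ (hmul _ _ (htr _ _ _ _) (htr _ _ _ _))
    (htr _ _ _ _)) (htr _ _ _ _)) (htr _ _ _ _)) (htr _ _ _ _)

/-- Every element of `SL(n,ℝ)` can be joined to the identity. -/
theorem exists_path {m : ℕ} (A : SL(m + 2, ℝ)) :
    ∃ c : ℝ → SL(m + 2, ℝ), Continuous c ∧ c 0 = 1 ∧ c 1 = A := by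
  refine gen (fun A => ∃ c : ℝ → SL(m + 2, ℝ), Continuous c ∧ c 0 = 1 ∧ c 1 = A) ?_ ?_ A
  · intro i j h a
    refine ⟨fun t => Tr i j h (t * a), ?_, ?_, ?_⟩
    · exact (Tr_continuous i j h).comp (continuous_id.mul continuous_const)
    · change Tr i j h (0 * a) = 1
      rw [zero_mul, Tr_zero]
    · change Tr i j h (1 * a) = _
      rw [one_mul]
  · rintro A B ⟨c, hc, hc0, hc1⟩ ⟨d, hd, hd0, hd1⟩
    refine ⟨fun t => c t * d t, hc.mul hd, ?_, ?_⟩
    · change c 0 * d 0 = 1
      rw [hc0, hd0, mul_one]
    · change c 1 * d 1 = _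
      rw [hc1, hd1]

end Pool.Agent.Y203.Lat
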