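import Mathlib
import Pool.Agent.Y203.Lat.Act
import Pool.Agent.Y203.Lat.Gen

/-!
# The twisted actions do not extend

The proof generalises the one of the starting result
`Pool.Agent.Results.MP_20070e_gt.NoLocalExtension` from the congruence subgroup of level two and
one of its characters to all the groups commensurable with `SL(n,ℤ)` and all their nontrivial sign
characters: all the
root groups, hence all of `SL(n,ℝ)`, preserve the sphere, and one moves from the identity to an
element with `χ = -1` along a path.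
-/

open scoped Manifold ContDiff Topology MatrixGroups
open Pool.Agent.Results.MP_20070e_gt.NoLocalExtension

namespace Pool.Agent.Y203.Lat

/-- The two parameter family `(I + δ e_{ij}) (I + ε e_{kj})`. -/
def KK {n : ℕ} {i j k : Fin n} (hij : i ≠ j) (hkj : k ≠ j) (ε δ : ℝ) : SL(n, ℝ) :=
  Tr i j hij δ * Tr k j hkj ε

lemma KK_conj {n : ℕ} {i j k : Fin n} (hij : i ≠ j) (hkj : k ≠ j) (hik : i ≠ k) (N ε δ : ℝ) :
    (Tr i k hik N : SL(n, ℝ)) * KK hij hkj ε δ = KK hij hkj ε (δ + N * ε) * Tr i k hik N := by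
  apply Subtype.ext
  change Matrix.transvection i k (N : ℝ) * (Matrix.transvection i j δ * Matrix.transvection k j ε) =
    (Matrix.transvection i j (δ + N * ε) * Matrix.transvection k j ε) *
      Matrix.transvection i k (N : ℝ)
  simp only [Matrix.transvection]
  simp only [mul_add, add_mul, mul_one, one_mul]
  simp only [Matrix.single_mul_single_same, Matrix.single_mul_single_of_ne _ _ _ _ hij.symm,
    Matrix.single_mul_single_of_ne _ _ _ _ hik.symm, Matrix.single_mul_single_of_ne _ _ _ _ hkj.symm,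
    mul_zero, zero_mul, add_zero]
  rw [Matrix.single_add]
  abel

lemma KK_zero {n : ℕ} {i j k : Fin n} (hij : i ≠ j) (hkj : k ≠ j) (δ : ℝ) :
    KK hij hkj 0 δ = Tr i j hij δ := by
  unfold KK
  rw [Tr_zero, mul_one]

lemma continuous_KK {n : ℕ} {i j k : Fin n} (hij : i ≠ j) (hkj : k ≠ j) :
    Continuous (fun p : ℝ × ℝ => KK hij hkj p.1 p.2) := by
  unfold KK
  exact ((Tr_continuous _ _ _).comp continuous_snd).mul ((Tr_continuous _ _ _).comp continuous_fst)

/-- The image of `ι` contains a nontrivial integral element of each root group. -/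
def HasRoots {n : ℕ} {Δ : Type} [Group Δ] (ι : Δ →* SL(n, ℝ)) : Prop :=
  ∀ (i j : Fin n) (h : i ≠ j), ∃ N : ℕ, 0 < N ∧ ∃ γ : Δ, ι γ = Tr i j h N

lemma exists_elem {n : ℕ} {Δ : Type} [Group Δ] {ι : Δ →* SL(n, ℝ)} (hι : HasRoots ι)
    (χ : Δ →* ℤˣ) (i j : Fin n) (h : i ≠ j) :
    ∃ N : ℕ, 0 < N ∧ ∃ γ : Δ, ι γ = Tr i j h N ∧ χ γ = 1 := by
  obtain ⟨N, hN, γ, hγ⟩ := hι i j h
  refine ⟨2 * N, by omega, γ ^ 2, ?_, ?_⟩
  · rw [map_pow, hγ, pow_two, Tr_mul]
    congr 1
    push_cast
    ring
  · rw [map_pow]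
    exact Int.units_sq _

lemma Tr_pow {n : ℕ} (i j : Fin n) (h : i ≠ j) (c : ℝ) (N : ℕ) :
    (Tr i j h c) ^ N = Tr i j h (N * c) := by
  induction N with
  | zero => rw [pow_zero, Nat.cast_zero, zero_mul, Tr_zero]
  | succ N ih =>
    rw [pow_succ, ih, Tr_mul]
    congr 1
    push_cast
    ring

/-- Passing to a subgroup of finite index. -/
lemma HasRoots.comp {n : ℕ} {Δ : Type} [Group Δ] {ι : Δ →* SL(n, ℝ)} (hι : HasRoots ι)
    (Δ' : Subgroup Δ) (hΔ : Δ'.FiniteIndex) : HasRoots (ι.comp Δ'.subtype) := by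
  intro i j h
  obtain ⟨N, hN, γ, hγ⟩ := hι i j h
  obtain ⟨M, hM, _, hmem⟩ := Subgroup.exists_pow_mem_of_index_ne_zero hΔ.index_ne_zero γ
  refine ⟨M * N, Nat.mul_pos hM hN, ⟨_, hmem⟩, ?_⟩
  change ι (γ ^ M) = _
  rw [map_pow, hγ, Tr_pow]
  push_cast
  rfl

theorem no_extension {m : ℕ} {Δ : Type} [Group Δ] (ι : Δ →* SL(m + 3, ℝ)) (hι : HasRoots ι)
    (χ : Δ →* ℤˣ) (hχ : χ ≠ 1) :
    letI := twistAct ι χ
    ¬ HasLocalExtension (M := Pu (m + 3)) ι (incl (m + 3)) := by
  rintro ⟨U, W, θ, hU, hSU, hW, hWU, hSp, hθ, h1, hmul, hext'⟩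
  have hext : ∀ (γ : Δ) (x : Pu (m + 3)), (ι γ, x) ∈ W →
      θ (ι γ, x) = twp ((χ γ : ℤˣ) : ℤ) (ι γ) x := hext'
  clear hext'
  -- the orbit map along the sphere
  let f : SL(m + 3, ℝ) → S (m + 3) → Pu (m + 3) := fun g x => θ (g, incl _ x)
  have hf : Continuous (fun p : SL(m + 3, ℝ) × S (m + 3) => f p.1 p.2) := by
    apply hθ.comp_continuous
    · exact continuous_fst.prodMk (isEmbedding_incl.continuous.comp continuous_snd)
    · exact fun p => hSp _ _
  -- points of norm one are on the sphere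
  have hlift : ∀ z : Pu (m + 3), ‖(z : E (m + 3))‖ = 1 → ∃ y : S (m + 3), incl _ y = z := by
    intro z hz
    exact ⟨⟨z, mem_sphere_zero_iff_norm.2 hz⟩, rfl⟩
  have hnorm1 : ∀ x : S (m + 3), ‖(f 1 x : E (m + 3))‖ = 1 := by
    intro x
    change ‖(θ (1, incl _ x) : E (m + 3))‖ = 1
    rw [h1 _ (hSp _ _)]
    exact mem_sphere_zero_iff_norm.1 x.2
  -- all the root groups preserve the sphere
  have hroot : ∀ (i j : Fin (m + 3)) (hij : i ≠ j) (δ : ℝ) (y : S (m + 3)),
      ‖(f (Tr i j hij δ) y : E (m + 3))‖ = 1 := by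
    intro i j hij
    obtain ⟨k, hki, hkj⟩ : ∃ k : Fin (m + 3), k ≠ i ∧ k ≠ j := by
      have hcard : ({i, j} : Finset (Fin (m + 3))).card < Fintype.card (Fin (m + 3)) := by
        have := Finset.card_le_two (a := i) (b := j)
        rw [Fintype.card_fin]
        omega
      obtain ⟨k, hk⟩ := Finset.exists_mem_notMem_of_card_lt_card
        (s := ({i, j} : Finset (Fin (m + 3)))) (t := Finset.univ) (by
          rw [Finset.card_univ]; exact hcard)
      refine ⟨k, ?_, ?_⟩
      · rintro rfl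
        exact hk.2 (by simp)
      · rintro rfl
        exact hk.2 (by simp)
    have hik : i ≠ k := hki.symm
    obtain ⟨N₀, hN₀, u, hu, hχu⟩ := exists_elem hι χ i k hik
    have hN₀' : (0 : ℝ) < N₀ := by exact_mod_cast hN₀
    let K : ℝ → ℝ → SL(m + 3, ℝ) := fun ε δ => KK hij hkj ε δ
    have hKc : Continuous (fun p : ℝ × ℝ => K p.1 p.2) := continuous_KK hij hkj
    have hK0 : ∀ δ, K 0 δ = Tr i j hij δ := fun δ => KK_zero hij hkj δ
    -- the action on the sphere
    let su : S (m + 3) → S (m + 3) := fun x => sphereAct (ι u) x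
    have hext_u : ∀ x : Pu (m + 3), (ι u, x) ∈ W → θ (ι u, x) = twp 1 (ι u) x := by
      intro x hx
      rw [hext u x hx, hχu, Units.val_one]
    have hsu_surj : Function.Surjective su := by
      intro y
      have hy : ‖((twp 1 (ι u)⁻¹ (incl _ y) : Pu (m + 3)) : E (m + 3))‖ = 1 := by
        rw [norm_twp]
        have : ‖((incl _ y : Pu (m + 3)) : E (m + 3))‖ = 1 := mem_sphere_zero_iff_norm.1 y.2
        rw [this, one_zpow]
      obtain ⟨x, hx⟩ := hlift _ hy
      refine ⟨x, ?_⟩
      have h2 : incl _ (su x) = incl _ y := by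
        change incl _ (sphereAct (ι u) x) = incl _ y
        rw [incl_twp 1, hx, ← twp_mul, mul_inv_cancel, mul_one, twp_one]
      exact isEmbedding_incl.injective h2
    -- the key relation
    have hrel : ∀ (ε δ : ℝ) (x : S (m + 3)), (ι u, f (K ε δ) x) ∈ W →
        ‖(f (K ε (δ + N₀ * ε)) (su x) : E (m + 3))‖ = ‖(f (K ε δ) x : E (m + 3))‖ := by
      intro ε δ x hx
      have e1 : θ (ι u, f (K ε δ) x) = θ (ι u * K ε δ, incl _ x) :=
        hmul _ _ _ (hSp _ _) hx (hSp _ _)
      have e2 : θ (K ε (δ + N₀ * ε), θ (ι u, incl _ x)) =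
          θ (K ε (δ + N₀ * ε) * ι u, incl _ x) := by
        apply hmul _ _ _ (hSp _ _) _ (hSp _ _)
        rw [hext_u _ (hSp _ _), ← incl_twp]
        exact hSp _ _
      rw [hext_u _ (hSp _ _), ← incl_twp] at e2
      rw [hext_u _ hx] at e1
      have e3 : ι u * K ε δ = K ε (δ + N₀ * ε) * ι u := by
        rw [hu]
        exact KK_conj hij hkj hik N₀ ε δ
      rw [e3, ← e2] at e1
      have e4 : twp 1 (ι u) (f (K ε δ) x) = θ (K ε (δ + N₀ * ε), incl _ (su x)) := e1
      change ‖(θ (K ε (δ + N₀ * ε), incl _ (su x)) : E (m + 3))‖ = _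
      rw [← e4, norm_twp, zpow_one]
    -- uniformity near the identity
    have hcompact : IsCompact (Set.univ : Set (S (m + 3))) := isCompact_univ
    have hnear : ∀ᶠ p : ℝ × ℝ in 𝓝 (0, 0), ∀ x : S (m + 3),
        (ι u, f (K p.1 p.2) x) ∈ W := by
      have := hcompact.eventually_forall_of_forall_eventually (x₀ := ((0 : ℝ), (0 : ℝ)))
        (P := fun p x => (ι u, f (K p.1 p.2) x) ∈ W) (by
          intro y _
          have hc : Continuous (fun z : (ℝ × ℝ) × S (m + 3) =>
              ((ι u, f (K z.1.1 z.1.2) z.2) : SL(m + 3, ℝ) × Pu (m + 3))) :=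
            continuous_const.prodMk (hf.comp ((hKc.comp continuous_fst).prodMk continuous_snd))
          apply hc.continuousAt.eventually_mem
          apply hW.mem_nhds
          change (ι u, f (K 0 0) y) ∈ W
          have : f (K 0 0) y = incl _ y := by
            change θ (K 0 0, incl _ y) = incl _ y
            rw [hK0, Tr_zero, h1 _ (hSp _ _)]
          rw [this]
          exact hSp _ _)
      simpa using this
    have hnear2 : ∀ η : ℝ, 0 < η → ∀ᶠ ε : ℝ in 𝓝 0, ∀ x : S (m + 3),
        |‖(f (K ε 0) x : E (m + 3))‖ - 1| < η := by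
      intro η hη
      have := hcompact.eventually_forall_of_forall_eventually (x₀ := (0 : ℝ))
        (P := fun ε x => |‖(f (K ε 0) x : E (m + 3))‖ - 1| < η) (by
          intro y _
          have hc : Continuous (fun z : ℝ × S (m + 3) => |‖(f (K z.1 0) z.2 : E (m + 3))‖ - 1|) := by
            have hc1 : Continuous (fun z : ℝ × S (m + 3) => f (K z.1 0) z.2) :=
              hf.comp ((hKc.comp (continuous_fst.prodMk continuous_const)).prodMk continuous_snd)
            have hc2 : Continuous (fun z : ℝ × S (m + 3) => (f (K z.1 0) z.2 : E (m + 3))) :=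
              continuous_subtype_val.comp hc1
            exact (hc2.norm.sub continuous_const).abs
          apply hc.continuousAt.eventually_lt continuousAt_const
          change |‖(f (K 0 0) y : E (m + 3))‖ - 1| < η
          rw [hK0, Tr_zero, hnorm1, sub_self, abs_zero]
          exact hη)
      simpa using this
    obtain ⟨r, hr, hr'⟩ := Metric.eventually_nhds_iff.1 hnear
    have hW' : ∀ ε δ : ℝ, |ε| < r → |δ| < r → ∀ x : S (m + 3),
        (ι u, f (K ε δ) x) ∈ W := by
      intro ε δ hε hδ x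
      have h2 : dist ((ε, δ) : ℝ × ℝ) (0, 0) < r := by
        rw [Prod.dist_eq, Real.dist_eq, Real.dist_eq, sub_zero, sub_zero]
        exact max_lt hε hδ
      exact hr' h2 x
    -- small elements of the root group preserve the sphere
    have hsmall : ∀ δ : ℝ, |δ| < r → ∀ y : S (m + 3), ‖(f (K 0 δ) y : E (m + 3))‖ = 1 := by
      intro δ hδ y
      -- the chain
      have hchain : ∀ (N : ℕ), 0 < N → ∀ (j : ℕ), j ≤ N → ∀ x : S (m + 3),
          ‖(f (K (δ / (N₀ * N)) (δ * (j / N))) (su^[j] x) : E (m + 3))‖ =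
            ‖(f (K (δ / (N₀ * N)) 0) x : E (m + 3))‖ := by
        intro N hN j
        have hN' : (0 : ℝ) < N := by exact_mod_cast hN
        induction j with
        | zero =>
          intro _ x
          simp
        | succ j ih =>
          intro hj x
          have hjN : (j : ℝ) / N ≤ 1 := by
            rw [div_le_one hN']
            exact_mod_cast (by omega : j ≤ N)
          have hjN0 : 0 ≤ (j : ℝ) / N := by positivity
          have e1 : |δ / (N₀ * N)| < r := by
            rw [abs_div, abs_of_pos (by positivity : (0 : ℝ) < N₀ * N)]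
            refine lt_of_le_of_lt (div_le_self (abs_nonneg _) ?_) hδ
            have h3 : (1 : ℝ) ≤ N := by exact_mod_cast hN
            have h4 : (1 : ℝ) ≤ N₀ := by exact_mod_cast hN₀
            nlinarith
          have e2 : |δ * (j / N)| < r := by
            rw [abs_mul, abs_of_nonneg hjN0]
            refine lt_of_le_of_lt (mul_le_of_le_one_right (abs_nonneg _) hjN) hδ
          have e3 := hrel (δ / (N₀ * N)) (δ * (j / N)) (su^[j] x) (hW' _ _ e1 e2 _)
          have e4 : δ * (j / N) + N₀ * (δ / (N₀ * N)) = δ * ((j + 1 : ℕ) / N) := by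
            push_cast
            field_simp
          rw [e4] at e3
          rw [Function.iterate_succ_apply', e3]
          exact ih (by omega) x
      have hlim : Filter.Tendsto (fun N : ℕ => δ / (N₀ * ((N : ℝ) + 1))) Filter.atTop (𝓝 0) := by
        have h2 : Filter.Tendsto (fun N : ℕ => (δ / N₀) * (1 / ((N : ℝ) + 1))) Filter.atTop
            (𝓝 ((δ / N₀) * 0)) :=
          Filter.Tendsto.mul tendsto_const_nhds tendsto_one_div_add_atTop_nhds_zero_nat
        rw [mul_zero] at h2
        refine h2.congr fun N => ?_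
        field_simp
      have hlim2 : Filter.Tendsto (fun N : ℕ => ‖(f (K (δ / (N₀ * ((N : ℝ) + 1))) δ) y : E (m + 3))‖)
          Filter.atTop (𝓝 ‖(f (K 0 δ) y : E (m + 3))‖) := by
        have hc : Continuous (fun ε : ℝ => ‖(f (K ε δ) y : E (m + 3))‖) := by
          have hc1 : Continuous (fun ε : ℝ => f (K ε δ) y) :=
            hf.comp ((hKc.comp (continuous_id.prodMk continuous_const)).prodMk continuous_const)
          exact (continuous_subtype_val.comp hc1).norm
        exact (hc.tendsto 0).comp hlim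
      by_contra hne
      have hη : 0 < |‖(f (K 0 δ) y : E (m + 3))‖ - 1| := abs_pos.2 (sub_ne_zero.2 hne)
      set η := |‖(f (K 0 δ) y : E (m + 3))‖ - 1| with hηdef
      have h2 : ∀ᶠ N : ℕ in Filter.atTop,
          |‖(f (K (δ / (N₀ * ((N : ℝ) + 1))) δ) y : E (m + 3))‖ - 1| < η / 2 := by
        filter_upwards [hlim.eventually (hnear2 (η / 2) (by linarith))] with N hN
        obtain ⟨x, hx⟩ := (hsu_surj.iterate (N + 1)) y
        have h3 := hchain (N + 1) (by omega) (N + 1) le_rfl x
        have h4 : (((N + 1 : ℕ) : ℝ)) / ((N + 1 : ℕ) : ℝ) = 1 := by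
          apply div_self
          positivity
        rw [h4, mul_one, hx] at h3
        push_cast at h3
        rw [h3]
        exact hN x
      have h3 : Filter.Tendsto
          (fun N : ℕ => |‖(f (K (δ / (N₀ * ((N : ℝ) + 1))) δ) y : E (m + 3))‖ - 1|)
          Filter.atTop (𝓝 η) := (hlim2.sub_const 1).abs
      have h4 : η ≤ η / 2 := le_of_tendsto h3 (h2.mono fun N hN => hN.le)
      linarith
    -- hence the whole root group preserves the sphere
    have hstep : ∀ c : ℝ, |c| < r → ∀ N : ℕ, ∀ y : S (m + 3),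
        ‖(f (Tr i j hij (N * c)) y : E (m + 3))‖ = 1 := by
      intro c hc N
      induction N with
      | zero =>
        intro y
        rw [Nat.cast_zero, zero_mul, Tr_zero]
        exact hnorm1 y
      | succ N ih =>
        intro y
        obtain ⟨y', hy'⟩ := hlift _ (ih y)
        have e1 : θ (Tr i j hij c, θ (Tr i j hij (N * c), incl _ y)) =
            θ (Tr i j hij c * Tr i j hij (N * c), incl _ y) := by
          apply hmul _ _ _ (hSp _ _) _ (hSp _ _)
          change (_, f (Tr i j hij (N * c)) y) ∈ W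
          rw [← hy']
          exact hSp _ _
        rw [Tr_mul] at e1
        have e2 : c + N * c = ((N + 1 : ℕ) : ℝ) * c := by
          push_cast
          ring
        rw [e2] at e1
        change ‖(θ (Tr i j hij (((N + 1 : ℕ) : ℝ) * c), incl _ y) : E (m + 3))‖ = 1
        rw [← e1]
        change ‖(θ (Tr i j hij c, f (Tr i j hij (N * c)) y) : E (m + 3))‖ = 1
        rw [← hy']
        have := hsmall c hc y'
        rw [hK0] at this
        exact this
    intro δ y
    obtain ⟨N, hN⟩ := exists_nat_gt (|δ| / r)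
    have hN0 : (0 : ℝ) < N := lt_of_le_of_lt (by positivity) hN
    have h2 : |δ / N| < r := by
      rw [abs_div, abs_of_pos hN0, div_lt_iff₀ hN0]
      rw [div_lt_iff₀ hr] at hN
      linarith
    have h3 := hstep (δ / N) h2 N y
    rwa [mul_div_cancel₀ _ hN0.ne'] at h3
  -- all of `SL(n,ℝ)` preserves the sphere
  have hall : ∀ (g : SL(m + 3, ℝ)) (y : S (m + 3)), ‖(f g y : E (m + 3))‖ = 1 := by
    intro g
    refine gen (m := m + 1) (fun g => ∀ y : S (m + 3), ‖(f g y : E (m + 3))‖ = 1) ?_ ?_ g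
    · exact hroot
    · intro A B hA hB y
      obtain ⟨y', hy'⟩ := hlift _ (hB y)
      have e1 : θ (A, θ (B, incl _ y)) = θ (A * B, incl _ y) := by
        apply hmul _ _ _ (hSp _ _) _ (hSp _ _)
        change (_, f B y) ∈ W
        rw [← hy']
        exact hSp _ _
      change ‖(θ (A * B, incl _ y) : E (m + 3))‖ = 1
      rw [← e1]
      change ‖(θ (A, f B y) : E (m + 3))‖ = 1
      rw [← hy']
      exact hA y'
  -- an element with `χ = -1` and a path to it
  obtain ⟨v, hv⟩ : ∃ v : Δ, χ v = -1 := by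
    by_contra hcon
    apply hχ
    ext v
    rcases Int.units_eq_one_or (χ v) with h | h
    · rw [h]; rfl
    · exact (hcon ⟨v, h⟩).elim
  obtain ⟨c, hc, hc0, hc1⟩ := exists_path (m := m + 1) (ι v)
  -- two sides of the sphere
  let y0 : S (m + 3) := ⟨EuclideanSpace.single 0 1, by simp⟩
  have hy0 : ‖(y0 : E (m + 3))‖ = 1 := mem_sphere_zero_iff_norm.1 y0.2
  let z : ℝ → Pu (m + 3) := fun s => ⟨(1 + |s|) • (y0 : E (m + 3)), by
    apply smul_ne_zero _ (sphere_ne_zero y0)
    positivity⟩
  have hz : Continuous z := by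
    apply Continuous.subtype_mk
    fun_prop
  have hz0 : z 0 = incl _ y0 := by
    apply Subtype.ext
    change (1 + |(0 : ℝ)|) • (y0 : E (m + 3)) = y0
    simp
  have hnormz : ∀ s, ‖(z s : E (m + 3))‖ = 1 + |s| := by
    intro s
    change ‖(1 + |s|) • (y0 : E (m + 3))‖ = 1 + |s|
    rw [norm_smul, hy0, mul_one, Real.norm_of_nonneg (by positivity)]
  have hnear3 : ∀ᶠ s : ℝ in 𝓝 0, ∀ t ∈ Set.Icc (0 : ℝ) 1, (c t, z s) ∈ W := by
    apply isCompact_Icc.eventually_forall_of_forall_eventually (x₀ := (0 : ℝ))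
      (P := fun s t => (c t, z s) ∈ W)
    intro t _
    have hc' : Continuous (fun p : ℝ × ℝ => ((c p.2, z p.1) : SL(m + 3, ℝ) × Pu (m + 3))) :=
      (hc.comp continuous_snd).prodMk (hz.comp continuous_fst)
    apply hc'.continuousAt.eventually_mem
    apply hW.mem_nhds
    change (c t, z 0) ∈ W
    rw [hz0]
    exact hSp _ _
  obtain ⟨r2, hr2, hr2'⟩ := Metric.eventually_nhds_iff.1 hnear3
  have hs : ∀ t ∈ Set.Icc (0 : ℝ) 1, (c t, z (r2 / 2)) ∈ W := by
    apply hr2'
    rw [Real.dist_eq, sub_zero, abs_of_pos (by linarith)]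
    linarith
  set x := z (r2 / 2) with hx
  have hxn : 1 < ‖(x : E (m + 3))‖ := by
    rw [hx, hnormz, abs_of_pos (by linarith)]
    linarith
  have hx1 : (1, x) ∈ W := by
    have := hs 0 (by simp)
    rwa [hc0] at this
  have hgc : ContinuousOn (fun t : ℝ => ‖(θ (c t, x) : E (m + 3))‖) (Set.Icc 0 1) := by
    have hc1 : ContinuousOn (fun t : ℝ => θ (c t, x)) (Set.Icc 0 1) := by
      apply hθ.comp
      · exact (hc.prodMk continuous_const).continuousOn
      · intro t ht
        exact hs t ht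
    exact (continuous_subtype_val.comp_continuousOn hc1).norm
  have hg0 : ‖(θ (c 0, x) : E (m + 3))‖ = ‖(x : E (m + 3))‖ := by
    rw [hc0, h1 _ hx1]
  have hg2 : ‖(θ (c 1, x) : E (m + 3))‖ = ‖(x : E (m + 3))‖⁻¹ := by
    have hm := hs 1 (by simp)
    rw [hc1] at hm ⊢
    rw [hext _ _ hm, norm_twp, hv]
    simp
  have hivt := intermediate_value_Icc' (by norm_num : (0 : ℝ) ≤ 1) hgc
  have h1mem : (1 : ℝ) ∈ Set.Icc ‖(θ (c 1, x) : E (m + 3))‖ ‖(θ (c 0, x) : E (m + 3))‖ := by
    rw [hg0, hg2]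
    exact ⟨inv_le_one_of_one_le₀ hxn.le, hxn.le⟩
  obtain ⟨t, ht, hgt⟩ := hivt h1mem
  obtain ⟨y, hy⟩ := hlift _ hgt
  have e1 : θ ((c t)⁻¹, θ (c t, x)) = θ ((c t)⁻¹ * c t, x) := by
    apply hmul _ _ _ (hs t ht)
    · rw [← hy]
      exact hSp _ _
    · rw [inv_mul_cancel]
      exact hx1
  rw [inv_mul_cancel, h1 _ hx1, ← hy] at e1
  have e2 := hall (c t)⁻¹ y
  change ‖(θ ((c t)⁻¹, incl _ y) : E (m + 3))‖ = 1 at e2
  rw [e1] at e2
  linarith

end Pool.Agent.Y203.Lat
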