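import Mathlib
import Pool.Agent.Y203.Lat.NoExt

/-!
# Groups commensurable with `SL(n,ℤ)`

Such a group contains a nontrivial elementary matrix in each root group, and has a subgroup of
finite index with a nontrivial sign character.
-/

open scoped Topology MatrixGroups
open Pool.Agent.Results.MP_20070e_gt.NoLocalExtension

namespace Pool.Agent.Y203.Lat

/-- A subgroup which contains a subgroup of finite index of `SL(n,ℤ)` has elements in all the root
groups. -/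
lemma hasRoots_of_relIndex {n : ℕ} (Γ : Subgroup SL(n, ℝ))
    (h : Γ.relIndex (toReal (n := n)).range ≠ 0) : HasRoots Γ.subtype := by
  intro i j hij
  have hmem : Tr i j hij 1 ∈ (toReal (n := n)).range :=
    ⟨Tz i j hij 1, by rw [toReal_Tz]; norm_num⟩
  obtain ⟨N, hN, _, hmem⟩ := Subgroup.exists_pow_mem_of_relIndex_ne_zero h hmem
  refine ⟨N, hN, ⟨_, hmem.1⟩, ?_⟩
  change (Tr i j hij 1) ^ N = _
  rw [Tr_pow, mul_one]

/-- The principal congruence subgroup of level `L`. -/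
def Gam (n L : ℕ) : Subgroup SL(n, ℤ) :=
  (Matrix.SpecialLinearGroup.map (n := Fin n) (Int.castRingHom (ZMod L))).ker

lemma Gam_finiteIndex (n L : ℕ) [NeZero L] : (Gam n L).FiniteIndex := by
  unfold Gam
  infer_instance

lemma mem_Gam {n L : ℕ} {A : SL(n, ℤ)} : A ∈ Gam n L ↔
    ∀ i j, (L : ℤ) ∣ (A : Matrix (Fin n) (Fin n) ℤ) i j - (1 : Matrix (Fin n) (Fin n) ℤ) i j := by
  unfold Gam
  rw [MonoidHom.mem_ker, Matrix.SpecialLinearGroup.ext_iff]
  refine forall_congr' fun i => forall_congr' fun j => ?_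
  have h1 : ((Matrix.SpecialLinearGroup.map (n := Fin n) (Int.castRingHom (ZMod L)) A :
      SL(n, ZMod L)) : Matrix (Fin n) (Fin n) (ZMod L)) i j =
      (((A : Matrix (Fin n) (Fin n) ℤ) i j : ℤ) : ZMod L) := rfl
  have h2 : ((1 : SL(n, ZMod L)) : Matrix (Fin n) (Fin n) (ZMod L)) i j =
      (((1 : Matrix (Fin n) (Fin n) ℤ) i j : ℤ) : ZMod L) := by
    rw [Matrix.SpecialLinearGroup.coe_one]
    by_cases hij : i = j <;> simp [Matrix.one_apply, hij]
  rw [h1, h2, ← ZMod.intCast_zmod_eq_zero_iff_dvd]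
  push_cast
  rw [sub_eq_zero]

/-- The sign character of level `L` (with `L` even) attached to the entry `A 0 1`. -/
def sg {m : ℕ} (L : ℕ) (A : SL(m + 2, ℤ)) : ℤˣ :=
  if (2 * L : ℤ) ∣ (A : Matrix (Fin (m + 2)) (Fin (m + 2)) ℤ) 0 1 then 1 else -1

lemma sg_mul {m L : ℕ} (hL : 2 ∣ L) {A B : SL(m + 2, ℤ)} (hA : A ∈ Gam (m + 2) L)
    (hB : B ∈ Gam (m + 2) L) : sg L (A * B) = sg L A * sg L B := by
  rw [mem_Gam] at hA hB
  have key : (2 * L : ℤ) ∣ ((A * B : SL(m + 2, ℤ)) : Matrix (Fin (m + 2)) (Fin (m + 2)) ℤ) 0 1 -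
      ((A : Matrix (Fin (m + 2)) (Fin (m + 2)) ℤ) 0 1 +
        (B : Matrix (Fin (m + 2)) (Fin (m + 2)) ℤ) 0 1) := by
    rw [Matrix.SpecialLinearGroup.coe_mul]
    set A' := (A : Matrix (Fin (m + 2)) (Fin (m + 2)) ℤ) with hA'
    set B' := (B : Matrix (Fin (m + 2)) (Fin (m + 2)) ℤ) with hB'
    have h1 : ((A' - 1) * (B' - 1)) 0 1 = (A' * B') 0 1 - (A' 0 1 + B' 0 1) := by
      have : (A' - 1) * (B' - 1) = A' * B' - A' - B' + 1 := by
        rw [sub_mul, mul_sub, mul_one, one_mul]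
        abel
      rw [this]
      have h01 : (0 : Fin (m + 2)) ≠ 1 := by simp
      simp [h01]
      ring
    rw [← h1, Matrix.mul_apply]
    apply Finset.dvd_sum
    intro j _
    have h2 := mul_dvd_mul (hA 0 j) (hB j 1)
    have h3 : (2 * L : ℤ) ∣ (L : ℤ) * L :=
      mul_dvd_mul_right (by exact_mod_cast hL) _
    exact h3.trans h2
  have h01 : (0 : Fin (m + 2)) ≠ 1 := by simp
  have hA2 : (L : ℤ) ∣ (A : Matrix (Fin (m + 2)) (Fin (m + 2)) ℤ) 0 1 := by
    have := hA 0 1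
    simpa [Matrix.one_apply, h01] using this
  have hB2 : (L : ℤ) ∣ (B : Matrix (Fin (m + 2)) (Fin (m + 2)) ℤ) 0 1 := by
    have := hB 0 1
    simpa [Matrix.one_apply, h01] using this
  obtain ⟨a, ha⟩ := hA2
  obtain ⟨b, hb⟩ := hB2
  obtain ⟨c, hc⟩ := key
  have hc' : ((A * B : SL(m + 2, ℤ)) : Matrix (Fin (m + 2)) (Fin (m + 2)) ℤ) 0 1 =
      (L : ℤ) * (a + b + 2 * c) := by
    have : ((A * B : SL(m + 2, ℤ)) : Matrix (Fin (m + 2)) (Fin (m + 2)) ℤ) 0 1 =
        2 * L * c + (L * a + L * b) := by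
      rw [← hc, ← ha, ← hb]; ring
    rw [this]; ring
  rcases Nat.eq_zero_or_pos L with h0 | h0
  · subst h0
    unfold sg
    rw [hc', ha, hb]
    simp
  · have hL0 : (L : ℤ) ≠ 0 := by exact_mod_cast h0.ne'
    have hiff : ∀ z : ℤ, (2 * L : ℤ) ∣ (L : ℤ) * z ↔ (2 : ℤ) ∣ z := by
      intro z
      rw [mul_comm (2 : ℤ) (L : ℤ)]
      exact mul_dvd_mul_iff_left hL0
    unfold sg
    simp only [hc', ha, hb, hiff]
    by_cases h2a : (2 : ℤ) ∣ a <;> by_cases h2b : (2 : ℤ) ∣ b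
    · have : (2 : ℤ) ∣ a + b + 2 * c := by omega
      simp [h2a, h2b, this]
    · have : ¬ (2 : ℤ) ∣ a + b + 2 * c := by omega
      simp [h2a, h2b, this]
    · have : ¬ (2 : ℤ) ∣ a + b + 2 * c := by omega
      simp [h2a, h2b, this]
    · have : (2 : ℤ) ∣ a + b + 2 * c := by omega
      simp [h2a, h2b, this]

lemma toReal_injective {n : ℕ} : Function.Injective (toReal (n := n)) := by
  intro A B h
  apply Subtype.ext
  ext i j
  have h1 := congrArg (fun g : SL(n, ℝ) => (g : Matrix (Fin n) (Fin n) ℝ) i j) h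
  change (((A : Matrix (Fin n) (Fin n) ℤ) i j : ℤ) : ℝ) =
    (((B : Matrix (Fin n) (Fin n) ℤ) i j : ℤ) : ℝ) at h1
  exact_mod_cast h1

/-- The character on a real group of matrices coming from the congruence subgroup. -/
lemma exists_char {m L : ℕ} (hL : 2 ∣ L) (Γ' : Subgroup SL(m + 2, ℝ))
    (hle : Γ' ≤ (Gam (m + 2) L).map toReal) :
    ∃ χ : Γ' →* ℤˣ, ∀ (A : SL(m + 2, ℤ)) (hA : toReal A ∈ Γ'), χ ⟨toReal A, hA⟩ = sg L A := by
  classical
  have hpre : ∀ γ : Γ', ∃ A : SL(m + 2, ℤ), A ∈ Gam (m + 2) L ∧ toReal A = γ := by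
    intro γ
    obtain ⟨A, hA, hA'⟩ := hle γ.2
    exact ⟨A, hA, hA'⟩
  choose F hF hF' using hpre
  have hFmul : ∀ a b : Γ', F (a * b) = F a * F b := by
    intro a b
    apply toReal_injective
    rw [map_mul, hF', hF', hF']
    rfl
  have hF1 : F 1 = 1 := by
    apply toReal_injective
    rw [map_one, hF']
    rfl
  refine ⟨{ toFun := fun γ => sg L (F γ), map_one' := ?_, map_mul' := ?_ }, ?_⟩
  · change sg L (F 1) = 1
    rw [hF1]
    unfold sg
    rw [if_pos]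
    have h01 : (0 : Fin (m + 2)) ≠ 1 := by simp
    simp [h01]
  · intro a b
    change sg L (F (a * b)) = _
    rw [hFmul]
    exact sg_mul hL (hF a) (hF b)
  · intro A hA
    change sg L (F ⟨toReal A, hA⟩) = sg L A
    congr 1
    apply toReal_injective
    rw [hF']

/-- Each group commensurable with `SL(n,ℤ)` has a subgroup of finite index with a nontrivial sign
character. -/
theorem exists_virtual_char {m : ℕ} (Γ : Subgroup SL(m + 2, ℝ))
    (h : Subgroup.Commensurable Γ (toReal (n := m + 2)).range) :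
    ∃ Γ' : Subgroup SL(m + 2, ℝ), Γ' ≤ Γ ∧ Γ'.relIndex Γ ≠ 0 ∧
      Subgroup.Commensurable Γ' (toReal (n := m + 2)).range ∧ ∃ χ : Γ' →* ℤˣ, χ ≠ 1 := by
  have h01 : (0 : Fin (m + 2)) ≠ 1 := by simp
  have hmem1 : Tr (0 : Fin (m + 2)) 1 h01 1 ∈ (toReal (n := m + 2)).range :=
    ⟨Tz 0 1 h01 1, by rw [toReal_Tz]; norm_num⟩
  obtain ⟨M, hM, _, hmem⟩ := Subgroup.exists_pow_mem_of_relIndex_ne_zero h.1 hmem1
  have hL0 : 2 * M ≠ 0 := by omega
  have : NeZero (2 * M) := ⟨hL0⟩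
  set R : Subgroup SL(m + 2, ℝ) := (toReal (n := m + 2)).range with hR
  set C : Subgroup SL(m + 2, ℝ) := (Gam (m + 2) (2 * M)).map toReal with hC
  have hCR : C.relIndex R ≠ 0 := by
    have h1 : R = (⊤ : Subgroup SL(m + 2, ℤ)).map toReal := by
      rw [hR, MonoidHom.range_eq_map]
    rw [h1, hC, Subgroup.relIndex_map_map_of_injective _ _ toReal_injective,
      Subgroup.relIndex_top_right]
    exact (Gam_finiteIndex (m + 2) (2 * M)).index_ne_zero
  have hRΓ : R.relIndex Γ ≠ 0 := h.2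
  have hCΓ : C.relIndex Γ ≠ 0 := Subgroup.relIndex_ne_zero_trans hCR hRΓ
  have hCle : C ≤ R := by
    rw [hC, hR]
    exact Subgroup.map_le_range _ _
  have h1 : (Γ ⊓ C).relIndex Γ ≠ 0 := by
    rw [inf_comm, Subgroup.inf_relIndex_right]
    exact hCΓ
  have h2 : Subgroup.Commensurable (Γ ⊓ C) Γ := by
    refine ⟨h1, ?_⟩
    rw [Subgroup.relIndex_eq_one.2 inf_le_left]
    exact one_ne_zero
  refine ⟨Γ ⊓ C, inf_le_left, h1, h2.trans h, ?_⟩
  obtain ⟨χ, hχ⟩ := exists_char (Dvd.intro M rfl) (Γ ⊓ C) inf_le_right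
  refine ⟨χ, fun hcon => ?_⟩
  have hT : toReal (Tz (0 : Fin (m + 2)) 1 h01 ((2 * M : ℕ) : ℤ)) ∈ Γ ⊓ C := by
    refine ⟨?_, ?_⟩
    · rw [toReal_Tz]
      have h3 : Tr (0 : Fin (m + 2)) 1 h01 (((2 * M : ℕ) : ℤ) : ℝ) =
          ((Tr (0 : Fin (m + 2)) 1 h01 1) ^ M) ^ 2 := by
        rw [Tr_pow, Tr_pow]
        congr 1
        push_cast
        ring
      rw [h3]
      exact Γ.pow_mem hmem.1 2
    · refine ⟨_, ?_, rfl⟩
      change _ ∈ Gam (m + 2) (2 * M)
      rw [mem_Gam]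
      intro i j
      change (((2 * M : ℕ) : ℤ)) ∣ Matrix.transvection 0 1 (((2 * M : ℕ) : ℤ)) i j -
        (1 : Matrix _ _ ℤ) i j
      simp only [Matrix.transvection, Matrix.add_apply, Matrix.single_apply]
      split_ifs <;> simp
  have h4 := hχ _ hT
  rw [hcon] at h4
  have h5 : sg (2 * M) (Tz (0 : Fin (m + 2)) 1 h01 ((2 * M : ℕ) : ℤ)) = -1 := by
    unfold sg
    rw [if_neg]
    change ¬ ((2 * ((2 * M : ℕ) : ℤ)) ∣ Matrix.transvection 0 1 (((2 * M : ℕ) : ℤ)) 0 1)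
    have h6 : Matrix.transvection (0 : Fin (m + 2)) 1 (((2 * M : ℕ) : ℤ)) 0 1 =
        ((2 * M : ℕ) : ℤ) := by
      simp [Matrix.transvection]
    rw [h6]
    intro h7
    have h8 : (0 : ℤ) < ((2 * M : ℕ) : ℤ) := by positivity
    have h9 := Int.le_of_dvd h8 h7
    linarith
  rw [h5] at h4
  have h10 : (1 : ℤˣ) = -1 := h4
  exact absurd h10 (by decide)

end Pool.Agent.Y203.Lat
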